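import Pool.Agent.H240.GU.Def4

/-!
# GU-13: a closed hyperbolic surface with a collar (helper328, for helper240)
-/

set_option autoImplicit false
set_option linter.unusedSectionVars false

open Set Filter Topology MeasureTheory
open scoped ContDiff ComplexConjugate Real

noncomputable section

namespace Pool.Agent.H328.GU

open Pool.Agent.H240.GU
open Pool.Agent.Y262.EG Pool.Agent.Y262.EX Pool.Agent.Y262.EL Pool.Agent.Y262.QE
open Pool.Agent.Y264.QR Pool.Agent.H240.SC Pool.Agent.H240.SG Pool.Agent.H240.CG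
open Pool.Agent.H240.AL

theorem cosp {x : ℝ} (hx : x ∈ Ioo (-(7 / 2 * L0)) (9 / 2 * L0)) :
    0 < Real.cos (lam * (x - L0 / 2)) := by
  obtain ⟨hL, hlam, -, -, -, -, hOm, -⟩ := Pool.Agent.Y262.EX.tW
  have hz : (x : ℂ) ∈ Om := by
    show -(7 / 2 * L0) < (x : ℂ).re ∧ (x : ℂ).re < 9 / 2 * L0
    simpa using hx
  rw [hOm] at hz
  have hz' : |lam * (x - L0 / 2)| < π / 2 := by simpa using hz
  exact Real.cos_pos_of_mem_Ioo ⟨by linarith [(abs_lt.mp hz').1], (abs_lt.mp hz').2⟩

/-- the metric -/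
def ps (z : ℂ) : ℝ := F0 z.re

theorem ps_inv : Inva Om ps ac := by
  refine ⟨Pool.Agent.Y794.EX.cont_F0re Pool.Agent.Y262.EX.tW, fun γ z hz => ?_⟩
  obtain ⟨hm, -, hmul, hdiff, hne, hF⟩ := tAc.1 γ z hz
  exact ⟨hne, hF⟩

theorem ps_curv {z : ℂ} (hz : z ∈ Om) : curv ps z = -(lam ^ 2) := by
  have hzI : z.re ∈ Ioo (-(7 / 2 * L0)) (9 / 2 * L0) := hz
  have hc := cosp hzI
  have h1 : ps =ᶠ[𝓝 z] fun u => (fun x => F0 x + 0) u.re := by
    refine Filter.Eventually.of_forall fun w => ?_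
    show F0 w.re = F0 w.re + 0
    rw [add_zero]
  rw [Pool.Agent.Y993.EX.curv_re (h := fun x => F0 x + 0) h1 ?_ ?_,
    Pool.Agent.Y993.EX.derderF hc 0, Pool.Agent.Y993.EX.expF hc]
  · simp
  · filter_upwards [Pool.Agent.Y993.EX.cosnear hc] with y hy
      using (Pool.Agent.Y993.EX.dF hy 0).differentiableAt
  · exact ((Pool.Agent.Y993.EX.ddF hc).congr_of_eventuallyEq
      (Pool.Agent.Y993.EX.derF hc 0)).differentiableAt

theorem ps_line {z : ℂ} (hz : z.re = L0 / 2) : ps z = 0 ∧ px ps z = 0 := by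
  have h0 := L0p
  constructor
  · show F0 z.re = 0
    rw [hz]
    unfold F0
    simp
  · have hx : L0 / 2 ∈ Ioo (-(7 / 2 * L0)) (9 / 2 * L0) := ⟨by linarith, by linarith⟩
    have h1 := Pool.Agent.Y993.EX.dF (cosp hx) 0
    have h2 : HasDerivAt (fun x => F0 x + 0) 0 (Complex.reCLM z) := by
      show HasDerivAt (fun x => F0 x + 0) 0 z.re
      rw [hz]
      refine h1.congr_deriv ?_
      rw [sub_self, mul_zero, Real.sin_zero, zero_div, mul_zero]
    have h3 := h2.hasFDerivAt.comp z Complex.reCLM.hasFDerivAt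
    have h4 : HasFDerivAt ps
        ((ContinuousLinearMap.toSpanSingleton ℝ (0 : ℝ)).comp Complex.reCLM) z := by
      refine h3.congr_of_eventuallyEq (Filter.Eventually.of_forall fun w => ?_)
      show F0 w.re = F0 w.re + 0
      rw [add_zero]
    unfold px
    rw [h4.fderiv]
    simp

theorem stHyp : StHyp := by
  obtain ⟨g, c1, C0, hP⟩ := tProf
  have h0 := L0p
  have hA : Act Gq Om ac := tAct
  obtain ⟨hI, hconj⟩ := tPhi2 g c1 C0 hP
  obtain ⟨M, iM, cM, pr, hpr⟩ := Pool.Agent.Y338.EX.qM Pool.Agent.Y749.EX.top Gq Om ac hA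
  obtain ⟨P, iP, cP, q, hq⟩ := Pool.Agent.Y848.EX.qP Pool.Agent.Y749.EX.top Gq Om ac hA
    (fun γ z hz => (hI.2 γ z hz).1)
  have hUT1 : IsUT Om (phi g c1) pr q :=
    Pool.Agent.Y145.EX.qU Gq Om ac (phi g c1) M P pr q hA hI hpr hq
  obtain ⟨C', hC⟩ := tClsE g c1 C0 hP M P pr q hpr hUT1
  have hS : ∀ z : ℂ, |z.re - L0 / 2| < L0 → z ∈ Stp L0 (3 / 2 * L0) := by
    intro z hz
    have h1 := abs_lt.1 hz
    exact ⟨by linarith [h1.1], by linarith [h1.2]⟩
  have hper : ∀ z ∈ Stp L0 (3 / 2 * L0), ∀ w ∈ Stp L0 (3 / 2 * L0),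
      (pr z = pr w ↔ ∃ n : ℤ, w = z + n * (2 * π * Complex.I)) := by
    intro z hz w hw
    refine ⟨hC.inj z hz w hw, ?_⟩
    rintro ⟨n, hn⟩
    have hper : ∀ k : ℤ, pr (z + k * (2 * π * Complex.I)) = pr z := by
      have hre : ∀ k : ℤ, (z + k * (2 * π * Complex.I)) ∈ Stp L0 (3 / 2 * L0) := by
        intro k
        have : (z + k * (2 * π * Complex.I)).re = z.re := by simp
        constructor
        · rw [this]; exact hz.1
        · rw [this]; exact hz.2
      intro k
      induction k using Int.induction_on with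
      | zero => simp
      | succ k ih =>
        have h1 := hC.per _ (hre k)
        rw [ih] at h1
        rw [← h1]
        congr 1
        push_cast
        ring
      | pred k ih =>
        have h1 := hC.per _ (hre (-k - 1))
        rw [← h1, ← ih]
        congr 1
        push_cast
        ring
    rw [hn, hper n]
  have hlam : 0 < lam := by
    unfold lam
    positivity
  exact ⟨Gq, inferInstance, Om, ac, ps, M, iM, cM, pr, L0 / 2, L0, lam ^ 2, hA, ps_inv, hpr,
    ⟨h0, fun z hz => strip_om (hS z hz), fun z w hz hw => hper z (hS z hz) w (hS w hw)⟩,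
    fun z hz => ps_line hz, by positivity, fun z hz => ps_curv hz⟩

end Pool.Agent.H328.GU
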